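import Pool.Agent.Y712.AJ.Fs

/-!
# Semisimplicity of Frobenius: one eigenvalue in the middle degree of rational varieties

Let `p` be a prime, `E` an algebraic closure of the field of `ℓ`-adic numbers, `ℓ ≠ p`, and
consider the cohomology `H^i(X)` with coefficients in `E` of all complete varieties `X` over all finite
fields of characteristic `p`, with its Frobenius endomorphism `F`. Let `M` be an infinite set of natural
numbers (for example, that of all large ones), and `α` a Frobenius eigenvalue of a curve over the prime
field. We prove that the following are equivalent:

1. `F` is semisimple on `H^i(X)` for all complete `X` (singular or not) and all `i`;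
2. for all `m ∈ M` and all blow-ups `B` of the projective space of dimension `2 m` over the **prime
   field** in one smooth centre, `F` has no Jordan block of length at least two for the **single
   eigenvalue `p ^ m`** on the middle cohomology `H^(2 m)(B)`;
3. for the same `m` and `B`, the intersection form on the space of the classes `x` in `H^(2 m)(B)` with
   `F x = p ^ m x` is nondegenerate;
4. `F` has no Jordan block of length at least two for the eigenvalue `p ^ m α` on `H^(2 m + 1)(B)`, for all
   such blow-ups `B` of projective spaces of odd dimension `2 m + 1`;
5. for these `B` the pairing of the eigenspaces for `p ^ m α` and `p ^ (m + 1) / α` is nondegenerate.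

Thus if Frobenius is not semisimple on the cohomology of one complete variety over some finite field of
characteristic `p`, then there is a rational smooth projective variety `B` over the prime field, of even
dimension `2 m`, as large as one likes, with a degenerate intersection form on the space of the Tate
classes in `H^(2 m)(B)`; and the same in odd dimension.
-/

namespace Pool.Agent.Results.MP_b685ef_ag.EigenvalueInMiddleDegree

open Pool.Agent.Y712.Fs

/-- **Frobenius is semisimple on the cohomology of all complete varieties over the finite fields of
characteristic `p` if and only if the eigenvalue `p ^ m` is semisimple in the middle degree, or the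
intersection form on its eigenspace is nondegenerate, for the rational varieties `B` over the prime field
which are blow-ups of a projective space of even dimension `2 m` in one smooth centre; the same for the
eigenvalue `p ^ m α` in odd dimension.** -/
theorem result {p : ℕ} [Fact p.Prime] {E : Type} [Field E] [CharZero E] [IsAlgClosed E]
    {ι : E →+* ℂ} {D : Data p E} (h : IsCohomology ι D) {M : Set ℕ} (hM : M.Infinite)
    {C : CVar p} (hC : D.Sm C 1) {α : E} {x : D.H C 1} (hx : ¬ D.IsZero x) (hα : D.Eig α x) :
    [AllSemisimple D, EvenNoJordan D M, EvenPerfect D M, OddNoJordan D M α,
      OddPerfect D M α].TFAE :=
  h.main hM hC hx hα

end Pool.Agent.Results.MP_b685ef_ag.EigenvalueInMiddleDegree
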