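import Mathlib
import Pool.Agent.Y114.OP.Frob

/-!
# Semisimplicity of Frobenius for almost all reductions, at every prime

Let `M i` be finitely many pure motives over a number field `F` (for example the cohomology groups of
smooth projective varieties over `F`), or families of motives over a variety, `ρ ℓ i` the `ℓ`-adic
realization of `M i`, pure of weight `w i`, for ALL prime numbers `ℓ`, `Γ` the Galois group of `F`
(or of the function field of the base), and `V ℓ` the sum of the `ρ ℓ i`.  Let `𝔤 ℓ` be the Lie algebra
of the motivic Galois group of the sum of the `M i`, or of another reductive group for which the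
tensors killed by `𝔤 ℓ` are Tate tensors; `r` is its rank.  NO semisimplicity is assumed for `ρ ℓ i`.

If `v` is a place of `F` with residue field of prime order `p`, where the `M i` have good reduction,
and `g` is a geometric Frobenius element at `v`, then `V ℓ` with the action of `g` is the cohomology
of the reduction modulo `v`, for all `ℓ ≠ p`, and `g` has the properties of `LikeFrobenius` (Deligne;
`c` is there for the Tate twists).  In a family, `v` is replaced by closed points of the base with
residue field of prime order.

Theorem.  For every prime number `ℓ₀` there is an open subset `O` of `Γ` which contains ALL elements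
with `r` multiplicatively independent eigenvalues on `V ℓ₀`, such that for every `g` in `O` which is
like a Frobenius element, over a prime number `p ≠ ℓ₀`, `g` acts semisimply on `V ℓ` for EVERY prime
number `ℓ ≠ p`.

If the algebraic monodromy group of `V ℓ₀` is connected and has the rank `r`, at ONE prime number `ℓ₀`
(this is so if the Mumford–Tate conjecture holds at `ℓ₀`), then the complement of `O` has measure
zero, and so, by Chebotarev's theorem, Frobenius acts semisimply on the cohomology of the reduction
modulo `v`, for all places `v` outside a set of density zero and for all `ℓ` at once.  For the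
reduction of a complete variety which is not smooth the cohomology is, as a Frobenius module, a sum of
parts of different weights, which are subquotients of the cohomology of smooth projective varieties
(from a proper hypercovering over `F`), so that the theorem, for these, gives the same conclusion.

The proof.  Relations between the eigenvalues of a Frobenius element follow from bounded ones
(`S_REL`), and these are locally constant (`S_ROOT`); so the elements of `O` like a Frobenius element
have `r` independent eigenvalues, which do not depend on `ℓ`.  For every `ℓ` the Frobenius torus is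
its own centralizer in `𝔤 ℓ`; the logarithm of the unipotent part of `g` is in the Lie algebra which
kills the Tate tensors and commutes with the torus; so it is zero.
-/

set_option autoImplicit false

namespace Pool.Agent.Results.MP_b685ef_ag.FrobeniusAlmostEverywhere

open NumberField IsDedekindDomain Polynomial Module Pool.Agent.Y114.TF Pool.Agent.Y114.GF
  Pool.Agent.Y114.MU Pool.Agent.Y114.RM Pool.Agent.Y114.OP Pool.Agent.H204R3.GP

theorem result {Γ : Type} [Group Γ] [TopologicalSpace Γ] [IsTopologicalGroup Γ]
    {ι : Type} [Fintype ι] [DecidableEq ι] {n : ι → ℕ}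
    -- the `ℓ`-adic realizations of motives of weights `w i`, for all prime numbers `ℓ`
    (ρ : ∀ (ℓ : ℕ) [Fact ℓ.Prime], Reps Γ n ℓ) (hρ : ∀ (ℓ : ℕ) [Fact ℓ.Prime], Conts (ρ ℓ))
    (w : ι → ℤ)
    -- the Lie algebra of the motivic Galois group, of rank at most `r`
    (𝔤 : ∀ (ℓ : ℕ) [Fact ℓ.Prime], EndSpace n ℓ)
    (h𝔤 : ∀ (ℓ : ℕ) [Fact ℓ.Prime], Motivic (ρ ℓ) (𝔤 ℓ)) (r : ℕ)
    (hrank : ∀ (ℓ : ℕ) [Fact ℓ.Prime], RankLE (𝔤 ℓ) r) (c : ℕ)
    -- one prime number `ℓ₀`
    (ℓ₀ : ℕ) [Fact ℓ₀.Prime] :
    ∃ O : Set Γ, IsOpen O ∧ (∀ γ₀, IndepEigenvalues (ρ ℓ₀) r γ₀ → γ₀ ∈ O) ∧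
      ∀ g ∈ O, ∀ p : ℕ, p.Prime → p ≠ ℓ₀ → LikeFrobenius ρ w c p g →
        ∀ (ℓ : ℕ) [Fact ℓ.Prime], ℓ ≠ p → Module.End.IsSemisimple (sumRep (ρ ℓ) g) :=
  Pool.Agent.Y114.OP.frob_uniform ρ hρ w 𝔤 h𝔤 r hrank c ℓ₀

end Pool.Agent.Results.MP_b685ef_ag.FrobeniusAlmostEverywhere
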