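import Pool.Agent.Y138.ZO.Mixed

/-!
# Zero-one law for semisimplicity of Frobenius in families of complete varieties

Let `S` be a geometrically connected normal scheme of finite type and dimension `d` over the field
with `q` elements and `D : FrobData G P` its fundamental group `G`, closed points `P` and Frobenius
elements, with the Chebotarev density theorem. For `r` in a finite set let `F r` be a mixed lisse
sheaf on `S`, for example the cohomology groups of a fixed degree of the fibres of a proper morphism to
`S` (with arbitrary singularities), or their intersection cohomology groups. By Deligne the sheaf has
a filtration with graded pieces which are pure of different weights and semisimple over the geometric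
fundamental group; this is used in the definition of `IsMixed`.

Theorem: the following are equivalent.
1. For every `r` there is a closed point of `S` at which Frobenius is semisimple on `F r`.
2. There is a closed point at which Frobenius is semisimple for all `r`.
3. The graded pieces `(F r).gr w` are semisimple representations of the arithmetic fundamental group.
4. The closed points at which Frobenius is semisimple for all `r` have Dirichlet density one.
-/

namespace Pool.Agent.Results.MP_b685ef_ag.ProperZeroOneLaw

open Pool.Agent.Y138.ZO

theorem result {G P : Type*} [Group G] [TopologicalSpace G] [IsTopologicalGroup G] [CompactSpace G]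
    [TotallyDisconnectedSpace G] (D : FrobData G P) {R : Type*} [Finite R]
    (ℓ : R → ℕ) [∀ r, Fact (ℓ r).Prime] (F : ∀ r, BlockRep (ℓ r) G) (hF : ∀ r, IsMixed D (F r)) :
    List.TFAE [
      ∀ r, ∃ s, (F r).SemisimpleAt (D.frob s),
      ∃ s, ∀ r, (F r).SemisimpleAt (D.frob s),
      ∀ r w, IsSemisimpleRep ((F r).gr w) ⊤,
      HasDensity D.q D.d D.deg {s | ∀ r, (F r).SemisimpleAt (D.frob s)} 1] :=
  D.zero_one_mixed ℓ F hF

end Pool.Agent.Results.MP_b685ef_ag.ProperZeroOneLaw
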