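import Pool.Agent.Y101.Th.Pc
import Pool.Agent.Y101.Th.CycMain

/-!
# Semisimplicity of the Frobenius: complete varieties and cubic hypersurfaces
-/

set_option autoImplicit false

open CategoryTheory AlgebraicGeometry Pool.Agent.Y116.UV Pool.Agent.Y101.Th

namespace Pool.Agent.Results.MP_b685ef_ag.TrilinearCubics

variable {k Ω : Type} [Field k] [Field Ω] {T : FullHomology k Ω}

/-- **Semisimplicity of the Frobenius for complete varieties and cubic hypersurfaces.** Let `k` be a
finite field. The Frobenius acts semisimply on `H^n(X, ℚ_ℓ)` for all complete varieties `X` over `k` and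
all `n` if and only if it does so for all cubic hypersurfaces in projective spaces which are defined by
trilinear forms `∑ t_ijl x_i y_j z_l`, and then it acts semisimply on `H^n_c(X, ℚ_ℓ)` for all varieties
`X`. Over a prime field the trilinear forms with coefficients `0` and `1` are sufficient. -/
theorem result [Finite k] (hT : IsFullHomology T) :
    ((∀ X : Sch k, IsProper X.hom → FullSemisimple T X) ↔
      ∀ (a b c : ℕ) (t : Fin a → Fin b → Fin c → k) (X : Sch k), IsTriCubic t X →
        FullSemisimple T X) ∧
    ((Nat.card k).Prime → ((∀ X : Sch k, IsProper X.hom → FullSemisimple T X) ↔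
      ∀ (a b c : ℕ) (t : Fin a → Fin b → Fin c → k), (∀ i j l, t i j l = 0 ∨ t i j l = 1) →
        ∀ X : Sch k, IsTriCubic t X → FullSemisimple T X)) ∧
    ((∀ X : Sch k, IsProper X.hom → FullSemisimple T X) ↔
      ∀ X : Sch k, FT True X → FullSemisimple T X) := by
  have hcub : ∀ {a b c : ℕ} {t : Fin a → Fin b → Fin c → k} {X : Sch k}, IsTriCubic t X →
      IsProper X.hom := by
    rintro a b c t X ⟨N, e, h, -⟩
    exact h
  have h1 : (∀ (a b c : ℕ) (t : Fin a → Fin b → Fin c → k) (X : Sch k), IsTriCubic t X →
      FullSemisimple T X) → ∀ X : Sch k, FT True X → FullSemisimple T X := fun h X hX =>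
    full_of_cubics hT (S := Set.univ) trivial trivial
      (fun n => has_all trivial trivial has_const) (fun a b c t _ => h a b c t) X hX
  refine ⟨⟨fun h a b c t X hX => h X (hcub hX), fun h X hX => h1 h X (ft_of_proper hX)⟩,
    fun hk => ⟨fun h a b c t _ X hX => h X (hcub hX), fun h X hX => ?_⟩,
    ⟨fun h => h1 fun a b c t X hX => h X (hcub hX), fun h X hX => h X (ft_of_proper hX)⟩⟩
  exact full_of_cubics hT (S := {0, 1}) (Or.inl rfl) (Or.inr rfl)
    (fun n => has_all (Or.inl rfl) (Or.inr rfl)
      (has_int (Or.inl rfl) (Or.inr rfl) (int_surj hk)))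
    (fun a b c t ht => h a b c t ht) X (ft_of_proper hX)

end Pool.Agent.Results.MP_b685ef_ag.TrilinearCubics
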